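import Mathlib
import Pool.Agent.Q28.PosWords

/-!
Partially positive words which are not potentially positive, in every free group of rank at least
three.
-/

namespace Pool.Agent.Results.MP_bbb74b_al.NotPotentiallyPositive

open FreeGroup
open scoped commutatorElement

/-- `w` is positive: no letter of `X⁻¹` occurs in its reduced word. -/
def IsPositive {X : Type} [DecidableEq X] (w : FreeGroup X) : Prop := ∀ l ∈ w.toWord, l.2 = true

/-- `w` is potentially positive: `φ w` is positive for some automorphism `φ`. -/
def PotentiallyPositive {X : Type} [DecidableEq X] (w : FreeGroup X) : Prop :=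
  ∃ φ : FreeGroup X ≃* FreeGroup X, IsPositive (φ w)

/-- `w` is partially positive: some generator `a` occurs in the reduced word of `w` and `a⁻¹` never
occurs. -/
def PartiallyPositive {X : Type} [DecidableEq X] (w : FreeGroup X) : Prop :=
  ∃ a : X, (a, true) ∈ w.toWord ∧ (a, false) ∉ w.toWord

/-- `w` is 3P: the image of a partially positive word under an automorphism. -/
def ThreeP {X : Type} [DecidableEq X] (w : FreeGroup X) : Prop :=
  ∃ v : FreeGroup X, PartiallyPositive v ∧ ∃ φ : FreeGroup X ≃* FreeGroup X, φ v = w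

/-- the word `a ^ 5 x a ^ 5 x⁻¹` -/
def word {X : Type} (a : X) (x : FreeGroup X) : FreeGroup X := of a ^ 5 * x * of a ^ 5 * x⁻¹

variable {X : Type} [DecidableEq X]

/-- exponent sum of the letter `a` -/
def cnt (a : X) : FreeGroup X →* Multiplicative ℤ :=
  FreeGroup.lift fun b => if b = a then Multiplicative.ofAdd 1 else 1

theorem cnt_of (a : X) : cnt a (of a) = Multiplicative.ofAdd 1 := by
  unfold cnt
  rw [lift_apply_of, if_pos rfl]

theorem cnt_eq_one {a : X} {w : FreeGroup X} (h : ∀ s, (a, s) ∉ w.toWord) : cnt a w = 1 := by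
  have h1 : cnt a (mk w.toWord) = 1 := by
    unfold cnt
    rw [lift_mk]
    apply List.prod_eq_one
    intro y hy
    obtain ⟨l, hl, rfl⟩ := List.mem_map.1 hy
    have hne : l.1 ≠ a := by
      rintro rfl
      exact h l.2 hl
    cases l.2 <;> simp [hne]
  rwa [mk_toWord] at h1

omit [DecidableEq X] in
theorem hom_commutator {A : Type} [CommGroup A] (f : FreeGroup X →* A) {x : FreeGroup X}
    (hx : x ∈ commutator (FreeGroup X)) : f x = 1 :=
  Abelianization.commutator_subset_ker f hx

theorem cnt_word (a : X) {x : FreeGroup X} (hx : x ∈ commutator (FreeGroup X)) :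
    cnt a (word a x) = Multiplicative.ofAdd 10 := by
  unfold word
  rw [MonoidHom.map_mul, MonoidHom.map_mul, MonoidHom.map_mul, MonoidHom.map_pow, cnt_of,
    MonoidHom.map_inv, hom_commutator _ hx]
  rfl

theorem word_ne_one (a : X) {x : FreeGroup X} (hx : x ∈ commutator (FreeGroup X)) :
    word a x ≠ 1 := by
  intro h
  have h1 := cnt_word a hx
  rw [h, MonoidHom.map_one] at h1
  have h2 := congrArg Multiplicative.toAdd h1
  exact absurd h2 (by decide)

theorem partiallyPositive_word (a : X) {x : FreeGroup X} (hx : x ∈ commutator (FreeGroup X))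
    (ha : ∀ s, (a, s) ∉ x.toWord) : PartiallyPositive (word a x) := by
  have hneg : (a, false) ∉ (word a x).toWord := by
    intro h
    have h1 : (a, false) ∉ (of a ^ 5 : FreeGroup X).toWord := by
      rw [toWord_of_pow]
      intro h
      have := List.eq_of_mem_replicate h
      simp at this
    have h2 : (a, false) ∉ (x⁻¹).toWord := by
      rw [toWord_inv]
      intro h
      rw [invRev, List.mem_reverse, List.mem_map] at h
      obtain ⟨l, hl, he⟩ := h
      apply ha l.2
      have : l.1 = a := congrArg Prod.fst he
      rw [← this]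
      exact hl
    unfold word at h
    rcases List.mem_append.1 ((toWord_mul_sublist _ _).subset h) with h | h
    · rcases List.mem_append.1 ((toWord_mul_sublist _ _).subset h) with h | h
      · rcases List.mem_append.1 ((toWord_mul_sublist _ _).subset h) with h | h
        · exact h1 h
        · exact ha _ h
      · exact h1 h
    · exact h2 h
  refine ⟨a, ?_, hneg⟩
  by_contra hpos
  have h1 : cnt a (word a x) = 1 := by
    apply cnt_eq_one
    intro s
    cases s
    · exact hneg
    · exact hpos
  rw [cnt_word a hx] at h1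
  have h2 := congrArg Multiplicative.toAdd h1
  exact absurd h2 (by decide)

/-- no conjugate of the image under a monomorphism to a free group is positive -/
theorem not_positive (a : X) {x : FreeGroup X} (hx : x ∈ commutator (FreeGroup X)) (hx1 : x ≠ 1)
    {Y : Type} [DecidableEq Y] (φ : FreeGroup X →* FreeGroup Y) (hφ : Function.Injective φ)
    (g : FreeGroup Y) : ¬ IsPositive (g * φ (word a x) * g⁻¹) := by
  intro hpos
  refine Q28.PW.main (φ (of a)) (φ x) (g * φ (word a x) * g⁻¹) g ?_ ?_ ?_ hpos ?_
  · have h := hom_commutator (Q28.PW.eps.comp φ) hx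
    exact congrArg Multiplicative.toAdd h
  · intro h
    apply hx1
    apply hφ
    rw [h, MonoidHom.map_one]
  · unfold word
    rw [MonoidHom.map_mul, MonoidHom.map_mul, MonoidHom.map_mul, MonoidHom.map_pow,
      MonoidHom.map_inv]
  · intro h
    apply word_ne_one a hx
    apply hφ
    rw [MonoidHom.map_one]
    have h1 : φ (word a x) = g⁻¹ * (g * φ (word a x) * g⁻¹) * g := by group
    rw [h1, h]
    group

/-- **Main theorem.**
(1) For every finite rank `r ≥ 3` there is a word in `F_r` which is partially positive (so 3P) but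
not potentially positive.
(2) More precisely, for every basis letter `a` and every element `x ≠ 1` of the commutator subgroup
of `F_r` whose reduced word does not involve `a`, the word `a ^ 5 x a ^ 5 x⁻¹` has this property;
and no conjugate of its image under any monomorphism of `F_r` to any free group is positive. -/
theorem result :
    (∀ r : ℕ, 3 ≤ r → ∃ w : FreeGroup (Fin r), PartiallyPositive w ∧ ThreeP w ∧
      ¬ PotentiallyPositive w) ∧
    (∀ (r : ℕ) (a : Fin r) (x : FreeGroup (Fin r)), x ∈ commutator (FreeGroup (Fin r)) → x ≠ 1 →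
      (∀ s, (a, s) ∉ x.toWord) →
      PartiallyPositive (word a x) ∧ ¬ PotentiallyPositive (word a x) ∧
      ∀ (Y : Type) [DecidableEq Y] (φ : FreeGroup (Fin r) →* FreeGroup Y),
        Function.Injective φ → ∀ g : FreeGroup Y, ¬ IsPositive (g * φ (word a x) * g⁻¹)) := by
  have key : ∀ (r : ℕ) (a : Fin r) (x : FreeGroup (Fin r)), x ∈ commutator (FreeGroup (Fin r)) →
      x ≠ 1 → (∀ s, (a, s) ∉ x.toWord) →
      PartiallyPositive (word a x) ∧ ¬ PotentiallyPositive (word a x) ∧
      ∀ (Y : Type) [DecidableEq Y] (φ : FreeGroup (Fin r) →* FreeGroup Y),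
        Function.Injective φ → ∀ g : FreeGroup Y, ¬ IsPositive (g * φ (word a x) * g⁻¹) := by
    intro r a x hx hx1 ha
    refine ⟨partiallyPositive_word a hx ha, ?_, fun Y _ φ hφ g => not_positive a hx hx1 φ hφ g⟩
    rintro ⟨φ, hφ⟩
    apply not_positive a hx hx1 φ.toMonoidHom φ.injective 1
    rw [one_mul, inv_one, mul_one]
    exact hφ
  refine ⟨fun r hr => ?_, key⟩
  let a : Fin r := ⟨0, by omega⟩
  let b : Fin r := ⟨1, by omega⟩
  let c : Fin r := ⟨2, by omega⟩
  have hab : a ≠ b := by simp [a, b]
  have hac : a ≠ c := by simp [a, c]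
  have hbc : b ≠ c := by simp [b, c]
  have hword : (⁅of b, of c⁆ : FreeGroup (Fin r)).toWord =
      [(b, true), (c, true), (b, false), (c, false)] := by
    have h1 : (⁅of b, of c⁆ : FreeGroup (Fin r)) =
        mk [(b, true), (c, true), (b, false), (c, false)] := by
      rw [commutatorElement_def]
      rfl
    rw [h1, toWord_mk]
    apply FreeGroup.IsReduced.reduce_eq
    unfold FreeGroup.IsReduced
    simp [hbc, hbc.symm]
  have hx : (⁅of b, of c⁆ : FreeGroup (Fin r)) ∈ commutator (FreeGroup (Fin r)) :=
    Subgroup.commutator_mem_commutator (Subgroup.mem_top _) (Subgroup.mem_top _)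
  have hx1 : (⁅of b, of c⁆ : FreeGroup (Fin r)) ≠ 1 := by
    intro h
    rw [h, toWord_one] at hword
    simp at hword
  have ha : ∀ s, (a, s) ∉ (⁅of b, of c⁆ : FreeGroup (Fin r)).toWord := by
    intro s
    rw [hword]
    simp [hab, hac]
  obtain ⟨h1, h2, _⟩ := key r a _ hx hx1 ha
  exact ⟨word a ⁅of b, of c⁆, h1, ⟨_, h1, MulEquiv.refl _, rfl⟩, h2⟩

end Pool.Agent.Results.MP_bbb74b_al.NotPotentiallyPositive
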